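import Mathlib

set_option autoImplicit false

namespace Pool.Agent.Results.MP_98930f_lc.Square

/-- The configuration `(p, v)` visits `x`: `x` lies on the closed segment from `p - v` to `p`. -/
def Visits {d : ℕ} (p v x : Fin d → ℤ) : Prop :=
  (fun k => (x k : ℝ)) ∈ segment ℝ (fun k => ((p k - v k : ℤ) : ℝ)) (fun k => (p k : ℝ))

/-- `(p i, v i)`, `0 ≤ i ≤ l`, is a feasible trajectory of length `l` for the cities
`x 0, …, x n`. -/
def Feasible {d n : ℕ} (x : Fin (n + 1) → Fin d → ℤ) (l : ℕ) (p v : ℕ → Fin d → ℤ) : Prop :=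
  (∀ i < l, v (i + 1) = p (i + 1) - p i ∧ ∀ k, v (i + 1) k - v i k ∈ ({-1, 0, 1} : Set ℤ)) ∧
  p 0 = x 0 ∧ v 0 = 0 ∧ p l = x (Fin.last n) ∧ v l = 0 ∧
  ∃ ι : Fin (n + 1) → ℕ, Monotone ι ∧ ∀ j, ι j ≤ l ∧ Visits (p (ι j)) (v (ι j)) (x j)

/-- optimal trajectories -/
def Optimal {d n : ℕ} (x : Fin (n + 1) → Fin d → ℤ) (l : ℕ) (p v : ℕ → Fin d → ℤ) : Prop :=
  Feasible x l p v ∧ ∀ l' p' v', Feasible x l' p' v' → l ≤ l'

/-- `L`: the largest coordinate difference between two cities -/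
def width {d n : ℕ} (x : Fin (n + 1) → Fin d → ℤ) : ℕ :=
  Finset.univ.sup fun t : Fin (n + 1) × Fin (n + 1) × Fin d => (x t.1 t.2.2 - x t.2.1 t.2.2).natAbs

/-- the corners of the square of side `3` -/
def sq : Fin 4 → Fin 2 → ℤ := ![![0, 0], ![3, 0], ![3, 3], ![0, 3]]

def fp (i : ℕ) : Fin 2 → ℤ :=
  ![[0, 1, 3, 4, 4, 3, 1, 0, 0].getD i 0, [0, 0, 0, 1, 2, 3, 3, 3, 3].getD i 0]

def fv (i : ℕ) : Fin 2 → ℤ :=
  ![[0, 1, 2, 1, 0, -1, -2, -1, 0].getD i 0, [0, 0, 0, 1, 1, 1, 0, 0, 0].getD i 0]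

theorem fast : Feasible sq 8 fp fv := by
  refine ⟨by decide, by decide, by decide, by decide, by decide, ![0, 2, 5, 8], by decide,
    fun j => ⟨by revert j; decide, ?_⟩⟩
  have : sq j = fp (![0, 2, 5, 8] j) := by revert j; decide
  rw [this]
  exact right_mem_segment ℝ _ _

theorem visits_end {d : ℕ} {p v x : Fin d → ℤ} (h : Visits p v x) (hv : ∀ k, |v k| ≤ 1) :
    x = p ∨ x = p - v := by
  obtain ⟨a, b, ha, hb, hab, h⟩ := h
  have key : ∀ k, ((p k - x k : ℤ) : ℝ) = a * v k := fun k => by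
    have := congrFun h k
    simp only [Pi.add_apply, Pi.smul_apply, smul_eq_mul] at this
    push_cast at this ⊢
    rw [← this, show b = 1 - a by linarith]
    ring
  by_cases h0 : x = p
  · exact Or.inl h0
  obtain ⟨k, hk⟩ := Function.ne_iff.1 h0
  have h1 : (1 : ℝ) ≤ |((p k - x k : ℤ) : ℝ)| := by
    exact_mod_cast Int.one_le_abs (sub_ne_zero.2 (Ne.symm hk))
  have h2 : |(v k : ℝ)| ≤ 1 := by exact_mod_cast hv k
  rw [key, abs_mul, abs_of_nonneg ha] at h1
  have h3 : a = 1 := by nlinarith [abs_nonneg (v k : ℝ)]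
  refine Or.inr (funext fun j => ?_)
  have := key j
  rw [h3, one_mul] at this
  have h4 : p j - x j = v j := by exact_mod_cast this
  simp only [Pi.sub_apply]
  omega

theorem slow (l : ℕ) (p v : ℕ → Fin 2 → ℤ) (h : Feasible sq l p v)
    (hv : ∀ i ≤ l, ∀ k, |v i k| ≤ 1) : 10 ≤ l := by
  obtain ⟨hs, h0, hv0, hl, hvl, ι, hm, hι⟩ := h
  have lip : ∀ (k : Fin 2) (a c : ℕ), a + c ≤ l → |p (a + c) k - p a k| ≤ c := by
    intro k a c
    induction c with
    | zero => simp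
    | succ c ih =>
      intro hc
      have h1 := congrFun (hs (a + c) (by omega)).1 k
      have h2 := hv (a + c + 1) (by omega) k
      have h3 := ih (by omega)
      simp only [Pi.sub_apply] at h1
      rw [← add_assoc]
      rw [abs_le] at *
      push_cast
      omega
  have lip' : ∀ (k : Fin 2) (a b : ℕ), a ≤ l → b ≤ l → |p b k - p a k| = 3 →
      a + 3 ≤ b ∨ b + 3 ≤ a := by
    intro k a b ha hb h
    rcases le_total a b with hab | hab
    · obtain ⟨c, rfl⟩ := Nat.exists_eq_add_of_le hab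
      have := lip k a c hb
      omega
    · obtain ⟨c, rfl⟩ := Nat.exists_eq_add_of_le hab
      have := lip k b c ha
      rw [abs_sub_comm] at h
      omega
  have hit : ∀ j, ∃ m, m ≤ ι j ∧ ι j ≤ m + 1 ∧ p m = sq j := by
    intro j
    rcases visits_end (hι j).2 (hv _ (hι j).1) with h | h
    · exact ⟨ι j, le_rfl, by omega, h.symm⟩
    · rcases hj : ι j with _ | i
      · rw [hj, hv0, sub_zero] at h
        exact ⟨0, le_rfl, by omega, h.symm⟩
      · have h1 := (hι j).1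
        rw [hj] at h h1
        refine ⟨i, by omega, le_rfl, ?_⟩
        rw [h, (hs i (by omega)).1]
        simp
  obtain ⟨m1, a1, b1, c1⟩ := hit 1
  obtain ⟨m2, a2, b2, c2⟩ := hit 2
  have d1 := (hι 1).1
  have d2 := (hι 2).1
  have d12 : ι 1 ≤ ι 2 := hm (by decide)
  have e1 := lip' 0 0 m1 (by omega) (by omega) (by rw [c1, h0]; decide)
  have e2 := lip' 1 m1 m2 (by omega) (by omega) (by rw [c1, c2]; decide)
  obtain ⟨l, rfl⟩ : ∃ l', l = l' + 1 := ⟨l - 1, by omega⟩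
  have h5 : p l = sq 3 := by
    have := (hs l (by omega)).1
    rw [hvl, hl] at this
    exact (sub_eq_zero.1 this.symm).symm
  have e3 := lip' 0 m2 l (by omega) (by omega) (by rw [c2, h5]; decide)
  omega

theorem result : ∃ (d n : ℕ) (x : Fin (n + 1) → Fin d → ℤ), 1 ≤ d ∧
    (∃ l p v, Optimal x l p v) ∧
    ∀ l p v, Optimal x l p v → ∃ i ≤ l, ∃ k, √(width x : ℝ) < |(v i k : ℝ)| := by
  classical
  refine ⟨2, 3, sq, by norm_num, ?_, fun l p v h => ?_⟩
  · have hex : ∃ l, ∃ p v, Feasible sq l p v := ⟨8, fp, fv, fast⟩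
    obtain ⟨p, v, h⟩ := Nat.find_spec hex
    exact ⟨_, p, v, h, fun l' p' v' h' => Nat.find_min' hex ⟨p', v', h'⟩⟩
  by_contra hc
  push Not at hc
  have hw : width sq = 3 := by decide +kernel
  have h2 : √((3 : ℕ) : ℝ) < 2 := by
    rw [Real.sqrt_lt' (by norm_num)]; norm_num
  have h3 := slow l p v h.1 fun i hi k => by
    have := lt_of_le_of_lt (hc i hi k) (hw ▸ h2)
    have h4 : |v i k| < 2 := by exact_mod_cast this
    omega
  have := h.2 8 fp fv fast
  omega

end Pool.Agent.Results.MP_98930f_lc.Square
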